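import Pool.Agent.H55.FFM.TD
import Pool.Agent.H51.TD.CTD

/-!
# (CTN) common zeros of two relatively prime polynomials in `N` variables
-/

set_option autoImplicit false

open MvPolynomial
open Pool.Agent.H12.ZD (pmap v O Res DenseOrbit NoInv)
open Pool.Agent.H18.HIT
open Pool.Agent.H8.TD (lc Wsp K3 xx ph)
open Pool.Agent.H55.FFM

namespace Pool.Agent.H52.FFM

open Pool.Agent.H51.TD (gauss_core relprime_equiv alg_adjoin)

/-- the last coordinates of a common zero are algebraically dependent -/
theorem core0 {n : ℕ} {k Ω : Type} [Field k] [Field Ω] [Algebra k Ω] (S S' : Po (n + 1) k)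
    (ξ : Fin (n + 1) → Ω)
    (hS : S ≠ 0) (hrel : IsRelPrime S S') (h1 : aeval ξ S = 0) (h2 : aeval ξ S' = 0)
    (hind : AlgebraicIndependent k (fun i : Fin n => ξ i.succ)) : False := by
  set j : MvPolynomial (Fin n) k →+* Ω :=
    (aeval (fun i : Fin n => ξ i.succ) : MvPolynomial (Fin n) k →ₐ[k] Ω).toRingHom with hjdef
  have hj : Function.Injective j := hind
  have hev : ∀ q : Po (n + 1) k, (finSuccEquiv k n q).eval₂ j (ξ 0) = aeval ξ q := by
    intro q
    have h : (Polynomial.eval₂RingHom j (ξ 0)).comp (finSuccEquiv k n).toRingEquiv.toRingHom =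
        (aeval ξ : Po (n + 1) k →ₐ[k] Ω).toRingHom := by
      apply MvPolynomial.ringHom_ext
      · intro a
        have : finSuccEquiv k n (C a) = Polynomial.C (C a) := by
          simp [finSuccEquiv_apply]
        simp only [RingHom.comp_apply]
        show (finSuccEquiv k n (C a)).eval₂ j (ξ 0) = aeval ξ (C a)
        rw [this, Polynomial.eval₂_C, hjdef]
        simp
      · intro i
        show (finSuccEquiv k n (X i)).eval₂ j (ξ 0) = aeval ξ (X i)
        refine Fin.cases ?_ ?_ i
        · rw [finSuccEquiv_X_zero]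
          simp
        · intro i
          rw [finSuccEquiv_X_succ, Polynomial.eval₂_C, hjdef]
          simp
    exact congrArg (fun φ : Po (n + 1) k →+* Ω => φ q) h
  refine gauss_core j hj (ξ 0) (finSuccEquiv k n S) (finSuccEquiv k n S') ?_ ?_ ?_ ?_
  · intro h
    exact hS ((finSuccEquiv k n).injective (by rw [h, map_zero]))
  · exact relprime_equiv (finSuccEquiv k n).toRingEquiv hrel
  · rw [hev, h1]
  · rw [hev, h2]

/-- `n` coordinates of a common zero are algebraically dependent -/
theorem core {n : ℕ} {k Ω : Type} [Field k] [Field Ω] [Algebra k Ω] (S S' : Po (n + 1) k)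
    (ξ : Fin (n + 1) → Ω)
    (hS : S ≠ 0) (hrel : IsRelPrime S S') (h1 : aeval ξ S = 0) (h2 : aeval ξ S' = 0)
    (σ : Fin n → Fin (n + 1)) (hσ : Function.Injective σ)
    (hind : AlgebraicIndependent k (fun i : Fin n => ξ (σ i))) : False := by
  obtain ⟨c, hc⟩ : ∃ c, c ∉ Set.range σ := by
    by_contra h
    push Not at h
    have h3 : Function.Surjective σ := h
    have := Fintype.card_le_of_surjective σ h3
    simp at this
  have hπi : Function.Injective (Fin.cons c σ : Fin (n + 1) → Fin (n + 1)) :=
    Fin.cons_injective_iff.2 ⟨hc, hσ⟩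
  have hπb : Function.Bijective (Fin.cons c σ : Fin (n + 1) → Fin (n + 1)) :=
    Finite.injective_iff_bijective.1 hπi
  set π : Fin (n + 1) ≃ Fin (n + 1) := Equiv.ofBijective _ hπb with hπ
  have hπs : ∀ i : Fin n, π i.succ = σ i := by
    intro i
    simp [hπ]
  have hev : ∀ q : Po (n + 1) k,
      aeval (fun i => ξ (π i)) (renameEquiv k π.symm q) = aeval ξ q := by
    intro q
    rw [renameEquiv_apply, aeval_rename]
    congr 1
    congr 1
    funext i
    simp
  refine core0 (renameEquiv k π.symm S) (renameEquiv k π.symm S') (fun i => ξ (π i)) ?_ ?_ ?_ ?_ ?_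
  · intro h
    exact hS ((renameEquiv k π.symm).injective (by rw [h, map_zero]))
  · exact relprime_equiv (renameEquiv k π.symm).toRingEquiv hrel
  · rw [hev, h1]
  · rw [hev, h2]
  · have : (fun i : Fin n => ξ (π i.succ)) = fun i : Fin n => ξ (σ i) := by
      funext i
      rw [hπs]
    rw [this]
    exact hind

theorem pf_CTN : T_CTN := by
  intro N k Ω _ _ _ S S' ξ hN hS hS' hrel h1 h2
  obtain ⟨n, rfl⟩ : ∃ n, N = n + 2 := ⟨N - 2, by omega⟩
  have hn2 : n + 2 - 2 = n := by omega
  rw [hn2]
  set E := IntermediateField.adjoin k (Set.range ξ) with hE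
  set η : Fin (n + 2) → E := fun i => ⟨ξ i, IntermediateField.subset_adjoin k _ ⟨i, rfl⟩⟩ with hη
  have hηv : ∀ i, (η i : Ω) = ξ i := fun i => rfl
  have := alg_adjoin ξ η hηv
  obtain ⟨t, ht, hB⟩ := exists_isTranscendenceBasis_subset (R := k) (A := E) (Set.range η)
  rw [← hB.cardinalMk_eq_trdeg]
  by_contra hlt
  rw [not_le] at hlt
  have h3 : Cardinal.mk (Fin (n + 1)) ≤ Cardinal.mk t := by
    have h4 := Order.succ_le_of_lt hlt
    have h5 : Order.succ ((n : ℕ) : Cardinal.{0}) = ((n + 1 : ℕ) : Cardinal.{0}) :=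
      (Cardinal.succ_natCast n).trans (by push_cast; rfl)
    rw [h5] at h4
    simpa using h4
  obtain ⟨em⟩ := (Cardinal.le_def _ _).1 h3
  have hg : ∀ x : t, ∃ i, η i = x := fun x => ht x.2
  choose g hg using hg
  have hginj : Function.Injective g := by
    intro x y hxy
    apply Subtype.ext
    rw [← hg x, ← hg y, hxy]
  refine core S S' ξ hS hrel h1 h2 (fun i => g (em i)) (hginj.comp em.injective) ?_
  have h6 : AlgebraicIndependent k (fun i : Fin (n + 1) => ((em i : t) : E)) :=
    hB.1.comp em em.injective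
  have h7 : AlgebraicIndependent k (fun i : Fin (n + 1) => (((em i : t) : E) : Ω)) :=
    h6.map' (f := IntermediateField.val E) (IntermediateField.val E).injective
  have h8 : (fun i : Fin (n + 1) => ξ (g (em i))) =
      fun i : Fin (n + 1) => (((em i : t) : E) : Ω) := by
    funext i
    rw [← hηv, hg]
  rw [h8]
  exact h7

end Pool.Agent.H52.FFM
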