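import Pool.Agent.H55.FFM.TE

/-!
# (BET) a function on the target above which the map is finite
-/

set_option autoImplicit false

open MvPolynomial
open Pool.Agent.H12.ZD (pmap v O Res DenseOrbit NoInv)
open Pool.Agent.H18.HIT
open Pool.Agent.H55.FFM

namespace Pool.Agent.H52.FFM

open Polynomial IsScalarTower in
/-- the quotient of the norm of an integral element by the element is integral -/
theorem norm_div_integral {A K L : Type} [CommRing A] [IsDomain A] [IsIntegrallyClosed A]
    [Field K] [Algebra A K] [IsFractionRing A K] [Field L] [Algebra K L] [Algebra A L]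
    [IsScalarTower A K L] [FiniteDimensional K L] (x : L) (hx0 : x ≠ 0) (hx : IsIntegral A x) :
    IsIntegral A (x⁻¹ * algebraMap K L (Algebra.norm K x)) := by
  classical
  let E := AlgebraicClosure L
  have hinj : Function.Injective (algebraMap L E) := (algebraMap L E).injective
  rw [← isIntegral_algHom_iff (IsScalarTower.toAlgHom A L E) hinj, coe_toAlgHom', map_mul,
    map_inv₀, ← algebraMap_apply K L E, Algebra.norm_eq_prod_roots _ (IsAlgClosed.splits _),
    ← Multiset.prod_erase (a := algebraMap L E x)]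
  · rw [mul_pow, ← mul_pow_sub_one (Nat.pos_iff_ne_zero.1 Module.finrank_pos) (algebraMap L E x),
      mul_assoc, inv_mul_cancel_left₀]
    · refine IsIntegral.mul (IsIntegral.pow ?_ _)
        (IsIntegral.pow (IsIntegral.multiset_prod (fun a ha ↦ ⟨minpoly A x, minpoly.monic hx, ?_⟩))
          _)
      · exact (isIntegral_algebraMap_iff hinj).mpr hx
      · replace ha := Multiset.erase_subset _ _ ha
        suffices (Polynomial.aeval a) ((minpoly A x).map (algebraMap A K)) = 0 by simpa
        rw [← minpoly.isIntegrallyClosed_eq_field_fractions K L hx]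
        simp only [mem_roots', ne_eq, Polynomial.map_eq_zero, IsRoot.def,
          eval_map_algebraMap] at ha
        exact ha.2
    · exact (map_ne_zero_iff _ hinj).mpr hx0
  · simp only [mem_roots', ne_eq, Polynomial.map_eq_zero, IsRoot.def, eval_map_algebraMap]
    refine ⟨minpoly.ne_zero (IsIntegral.tower_top hx), ?_⟩
    rw [Polynomial.aeval_algebraMap_apply, minpoly.aeval, map_zero]

/-- the norm of an integral element, along a homomorphism of fields -/
theorem nm_lemma {A K L : Type} [CommRing A] [IsDomain A] [IsIntegrallyClosed A]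
    [Field K] [Algebra A K] [IsFractionRing A K] [Field L] (τ : K →+* L) (x : L) (hx0 : x ≠ 0)
    (hfin : 1 ≤ @Module.finrank K L _ _ τ.toAlgebra.toModule)
    (hx : (τ.comp (algebraMap A K)).IsIntegralElem x) :
    ∃ β : A, @Algebra.norm K L _ _ τ.toAlgebra x = algebraMap A K β ∧
      (τ.comp (algebraMap A K)).IsIntegralElem (x⁻¹ * τ (algebraMap A K β)) := by
  let _ := τ.toAlgebra
  let _ := (τ.comp (algebraMap A K)).toAlgebra
  have htower : IsScalarTower A K L := IsScalarTower.of_algebraMap_eq fun _ => rfl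
  have hfd : FiniteDimensional K L := Module.finite_of_finrank_pos hfin
  have hx' : IsIntegral A x := hx
  obtain ⟨β, hβ⟩ := IsIntegrallyClosed.isIntegral_iff.1 (Algebra.isIntegral_norm K hx')
  refine ⟨β, hβ.symm, ?_⟩
  have h := norm_div_integral (A := A) (K := K) x hx0 hx'
  rw [← hβ] at h
  exact h

theorem pf_BET (hRDT : T_RDT) : T_BET := by
  intro N k _ _ G τ θ Φ Δ R I F _ _ π τ' r hinj hExt hPrim hVM hΔ hInd hZm hπr
  obtain ⟨he, hdτ, -, hall⟩ := hRDT N k G τ θ Φ Δ R I F π τ' hinj hExt hPrim hVM hΔ hInd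
  obtain ⟨m, -, h, -, -, -, hh, hπh, -⟩ := hall r
  have hr0 : r ≠ 0 := by
    intro h0
    rw [h0, map_zero] at hπr
    exact zero_ne_one hπr
  have hfrinj : Function.Injective (algebraMap (Po N k) (KN N k)) := IsFractionRing.injective _ _
  have hfr0 : (fr r : KN N k) ≠ 0 := by
    intro h0
    exact hr0 (hfrinj (by rw [map_zero]; exact h0))
  have hcomp : ((τ : KN N k →+* KN N k).comp (algebraMap (Po N k) (KN N k))) =
      (algebraMap (Po N k) (KN N k)).comp (aeval G : Po N k →ₐ[k] Po N k).toRingHom := by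
    apply RingHom.ext
    intro q
    exact hExt q
  have hI : ∀ a : Po N k, Itg G a ↔
      ((τ : KN N k →+* KN N k).comp (algebraMap (Po N k) (KN N k))).IsIntegralElem (fr a) := by
    intro a
    rw [hcomp]
    constructor
    · rintro ⟨P, hP, hP0⟩
      refine ⟨P, hP, ?_⟩
      rw [← Polynomial.hom_eval₂, hP0, map_zero]
    · rintro ⟨P, hP, hP0⟩
      refine ⟨P, hP, ?_⟩
      rw [← Polynomial.hom_eval₂] at hP0
      exact hfrinj (by rw [hP0, map_zero])
  have hdeg : 1 ≤ @Module.finrank (KN N k) (KN N k) _ _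
      (τ : KN N k →+* KN N k).toAlgebra.toModule := by
    have h1 : 1 ≤ deh (τ : KN N k →+* KN N k) := by rw [hdτ]; exact he
    exact h1
  obtain ⟨β, hβ, hβI⟩ := nm_lemma (A := Po N k) (τ : KN N k →+* KN N k) (fr r) hfr0 hdeg
    ((hI r).1 hZm.1)
  have hβ' : nmh (τ : KN N k →+* KN N k) (fr r) = fr β := hβ
  have hΔβ : Δ ^ m * β = h := by
    apply hfrinj
    rw [map_mul, map_pow]
    rw [hβ'] at hh
    exact hh
  have hπΔ : π Δ ≠ 0 := fun h0 => hΔ ((hVM.ker Δ).1 h0)
  have hnm1 : nmh (τ' : F →+* F) (π r) = 1 := by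
    rw [hπr]
    let _ := (τ' : F →+* F).toAlgebra
    exact map_one (@Algebra.norm F F _ _ (τ' : F →+* F).toAlgebra)
  have hπβ : π β = 1 := by
    rw [hnm1, mul_one, ← hΔβ, map_mul, map_pow] at hπh
    exact (mul_left_cancel₀ (pow_ne_zero m hπΔ) (by rw [mul_one]; exact hπh.symm))
  refine ⟨β, hπβ, ?_⟩
  -- the cofactor
  set y : KN N k := (fr r)⁻¹ * (τ : KN N k →+* KN N k) (algebraMap (Po N k) (KN N k) β) with hy
  have hyint : IsIntegral (Po N k) y := by
    obtain ⟨P, hP, hP0⟩ := hβI
    refine ⟨P.map (aeval G : Po N k →ₐ[k] Po N k).toRingHom, hP.map _, ?_⟩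
    rw [Polynomial.eval₂_map, ← hcomp]
    exact hP0
  obtain ⟨r', hr'⟩ := IsIntegrallyClosed.isIntegral_iff.1 hyint
  have hr'I : Itg G r' := by
    rw [hI]
    have h1 : (fr r' : KN N k) = y := hr'
    rw [h1]
    exact hβI
  have hprod : aeval G β = r * r' := by
    apply hfrinj
    rw [map_mul, hr', hy]
    have h1 : (τ : KN N k →+* KN N k) (algebraMap (Po N k) (KN N k) β) =
        algebraMap (Po N k) (KN N k) (aeval G β) := hExt β
    rw [h1]
    have h2 : (algebraMap (Po N k) (KN N k) r) * ((fr r)⁻¹ *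
        algebraMap (Po N k) (KN N k) (aeval G β)) = algebraMap (Po N k) (KN N k) (aeval G β) :=
      mul_inv_cancel_left₀ hfr0 _
    exact h2.symm
  intro a
  obtain ⟨n, hn⟩ := hZm.2 a
  refine ⟨n, ?_⟩
  have h1 : aeval G β ^ n * a = r' ^ n * (r ^ n * a) := by
    rw [hprod]
    ring
  rw [h1]
  have h2 : ∀ l : ℕ, Itg G (r' ^ l) := by
    intro l
    induction l with
    | zero =>
      rw [pow_zero]
      exact RingHom.isIntegralElem_one _
    | succ l ih =>
      rw [pow_succ]
      exact RingHom.IsIntegralElem.mul _ ih hr'I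
  exact RingHom.IsIntegralElem.mul _ (h2 n) hn

end Pool.Agent.H52.FFM
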