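import Pool.Agent.H55.FFM.TD

/-!
# (DEL) a bound for the degree of an iterate
-/

set_option autoImplicit false

open MvPolynomial
open Pool.Agent.H12.ZD (pmap v O Res DenseOrbit NoInv)
open Pool.Agent.H18.HIT
open Pool.Agent.H8.TD (lc Wsp K3 xx ph)
open Pool.Agent.H55.FFM

namespace Pool.Agent.H52.FFM

/-- the sections given by a polynomial with bounded degrees -/
theorem mem_wsp {k F : Type} [Field k] [Field F] [Algebra k F] (x : Fin 3 → F) (J : F) (a b : ℕ)
    (i₀ j₀ : Fin 3) (Φ : MvPolynomial (Fin 4) k) (c : k)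
    (h0 : degreeOf 0 Φ ≤ a) (h1 : degreeOf 1 Φ ≤ a) (h2 : degreeOf 2 Φ ≤ b) :
    aeval ![x i₀, x j₀, J, algebraMap k F c] Φ ∈ Wsp k x ![J] (2 * a) b := by
  rw [aeval_def, eval₂_eq']
  refine Submodule.sum_mem _ fun m hm => ?_
  rw [← Algebra.smul_def]
  refine Submodule.smul_mem _ _ ?_
  have hm0 : m 0 ≤ a := (degreeOf_le_iff.1 h0) m hm
  have hm1 : m 1 ≤ a := (degreeOf_le_iff.1 h1) m hm
  have hm2 : m 2 ≤ b := (degreeOf_le_iff.1 h2) m hm
  have hprod : ∏ i, (![x i₀, x j₀, J, algebraMap k F c] : Fin 4 → F) i ^ m i =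
      (c ^ m 3) • ((∏ i, x i ^ ((if i = i₀ then m 0 else 0) + (if i = j₀ then m 1 else 0))) *
        ∏ i, (![J] : Fin 1 → F) i ^ (fun _ : Fin 1 => m 2) i) := by
    rw [Fin.prod_univ_four, Fin.prod_univ_one, Algebra.smul_def, map_pow]
    have h3 : ∏ i, x i ^ ((if i = i₀ then m 0 else 0) + (if i = j₀ then m 1 else 0)) =
        x i₀ ^ m 0 * x j₀ ^ m 1 := by
      simp only [pow_add]
      rw [Finset.prod_mul_distrib]
      congr 1
      · rw [Finset.prod_eq_single i₀]
        · rw [if_pos rfl]
        · intro i _ hi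
          rw [if_neg hi, pow_zero]
        · intro h
          exact absurd (Finset.mem_univ _) h
      · rw [Finset.prod_eq_single j₀]
        · rw [if_pos rfl]
        · intro i _ hi
          rw [if_neg hi, pow_zero]
        · intro h
          exact absurd (Finset.mem_univ _) h
    rw [h3]
    simp
    ring
  rw [hprod]
  refine Submodule.smul_mem _ _ (Submodule.subset_span ⟨_, _, ?_, ?_, rfl⟩)
  · rw [Finset.sum_add_distrib, Finset.sum_ite_eq' Finset.univ i₀, if_pos (Finset.mem_univ _),
      Finset.sum_ite_eq' Finset.univ j₀, if_pos (Finset.mem_univ _)]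
    omega
  · rw [Fin.sum_univ_one]
    exact hm2

theorem dg_smul_J {k F : Type} [Field k] [Field F] [Algebra k F]
    (hinf : ¬ FiniteDimensional k F) (J : F) (D : ℕ) (hJ : dg k {J} ≤ D) (s : Fin 1 → k) :
    dg k {lc s ![J]} ≤ D := by
  have h1 : lc s (![J] : Fin 1 → F) = s 0 • J := by
    unfold lc
    rw [Fin.sum_univ_one]
    rfl
  rw [h1]
  by_cases hs : s 0 = 0
  · rw [hs, zero_smul]
    unfold dg
    have h2 : IntermediateField.adjoin k ({0} : Set F) = ⊥ := by
      rw [IntermediateField.adjoin_simple_eq_bot_iff]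
      exact zero_mem _
    rw [h2]
    have h3 : Module.finrank (⊥ : IntermediateField k F) F = Module.finrank k F :=
      IntermediateField.finrank_bot'
    rw [h3, Module.finrank_of_not_finite hinf]
    exact Nat.zero_le _
  · have h2 : IntermediateField.adjoin k ({s 0 • J} : Set F) =
        IntermediateField.adjoin k ({J} : Set F) := by
      apply le_antisymm
      · rw [IntermediateField.adjoin_simple_le_iff]
        rw [Algebra.smul_def]
        exact mul_mem (IntermediateField.algebraMap_mem _ _)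
          (IntermediateField.mem_adjoin_simple_self k J)
      · rw [IntermediateField.adjoin_simple_le_iff]
        have h3 : (s 0)⁻¹ • (s 0 • J) = J := by rw [smul_smul, inv_mul_cancel₀ hs, one_smul]
        have h4 : (s 0)⁻¹ • (s 0 • J) ∈ IntermediateField.adjoin k ({s 0 • J} : Set F) :=
          (IntermediateField.adjoin k ({s 0 • J} : Set F)).toSubalgebra.smul_mem
            (IntermediateField.mem_adjoin_simple_self k _) _
        rw [h3] at h4
        exact h4
    unfold dg at hJ ⊢
    rw [h2]
    exact hJ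

theorem pf_DEL (hLOW : T_LOW) (hCLZ : T_CLZ) (hPBK : T_PBK) (hDEH : T_DEH) : T_DEL := by
  intro k F _ _ _ _ _ R τ x J E n a b δ D i₀ j₀ s' Φ hCv hτR hE hE1 hxR hJR hΦ hc h0 h1 h2 hδ hδ'
    hδ1 hD
  classical
  have hinfF : ¬ FiniteDimensional k F := by
    intro hfd
    obtain ⟨y, hy⟩ := hCv.tra
    exact hy (Algebra.IsAlgebraic.isAlgebraic y)
  have hl'R : lc s' x ∈ R := by
    unfold lc
    exact sum_mem fun i _ => R.smul_mem (hxR i) (s' i)
  have hitR : ∀ m : ℕ, τ^[m] (lc s' x) ∈ R := by
    intro m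
    induction m with
    | zero => exact hl'R
    | succ m ih =>
      rw [Function.iterate_succ_apply']
      exact hτR _ ih
  let u : R := ⟨τ^[n] (lc s' x), hitR n⟩
  have hdgu : dg k {(u : F)} = E ^ n * δ := by
    have h3 := hPBK k F τ n {lc s' x}
    rw [Set.image_singleton, hδ'] at h3
    have h4 : Module.finrank τ.fieldRange F = E := by
      rw [← hE, hDEH F (τ : F →+* F)]
      rfl
    rw [h4] at h3
    exact h3
  have hpos : 0 < dg k {(u : F)} := by
    rw [hdgu]
    exact Nat.mul_pos (pow_pos (by omega) n) (by omega)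
  have hfdu : FiniteDimensional (IntermediateField.adjoin k {(u : F)}) F :=
    Module.finite_of_finrank_pos hpos
  have htr : Transcendental k (u : F) := by
    intro halg
    apply hinfF
    have h3 : FiniteDimensional k (IntermediateField.adjoin k {(u : F)}) :=
      IntermediateField.adjoin.finiteDimensional halg.isIntegral
    exact Module.Finite.trans (IntermediateField.adjoin k {(u : F)}) F
  have hbad := hLOW k F R u hCv.fg hCv.top htr hfdu
  -- the polynomial
  let xi : R := ⟨x i₀, hxR i₀⟩
  let xj : R := ⟨x j₀, hxR j₀⟩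
  let JJ : R := ⟨J, hJR⟩
  let p : Polynomial R := aeval ![Polynomial.C xi, Polynomial.C xj, Polynomial.C JJ,
    Polynomial.X] Φ
  have hpe : ∀ y : R, ((p.eval y : R) : F) = aeval ![x i₀, x j₀, J, (y : F)] Φ := by
    intro y
    have h3 : p.eval y = aeval ![xi, xj, JJ, y] Φ := by
      have h4 := MvPolynomial.comp_aeval_apply (f := ![Polynomial.C xi, Polynomial.C xj,
        Polynomial.C JJ, Polynomial.X]) ((Polynomial.aeval y : Polynomial R →ₐ[R] R).restrictScalars k)
        Φ
      have h5 : (fun i => ((Polynomial.aeval y : Polynomial R →ₐ[R] R).restrictScalars k)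
          ((![Polynomial.C xi, Polynomial.C xj, Polynomial.C JJ, Polynomial.X] :
            Fin 4 → Polynomial R) i)) = ![xi, xj, JJ, y] := by
        funext i
        fin_cases i <;> simp
      rw [h5] at h4
      rw [← h4]
      exact (Polynomial.coe_aeval_eq_eval y ▸ rfl)
    rw [h3]
    have h4 := MvPolynomial.comp_aeval_apply (f := ![xi, xj, JJ, y]) R.val Φ
    have h5 : (fun i => R.val ((![xi, xj, JJ, y] : Fin 4 → R) i)) = ![x i₀, x j₀, J, (y : F)] := by
      funext i
      fin_cases i <;> rfl
    rw [h5] at h4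
    exact h4
  have hp0 : p ≠ 0 := by
    intro h3
    obtain ⟨c, hc'⟩ := hc
    apply hc'
    have h4 := hpe (algebraMap k R c)
    rw [h3, Polynomial.eval_zero] at h4
    exact h4.symm
  have hroots : {c : k | p.eval (algebraMap k R c) = 0}.Finite := by
    have h3 : Function.Injective (algebraMap k R) := (algebraMap k R).injective
    refine Set.Finite.of_finite_image (f := algebraMap k R) ?_ h3.injOn
    refine Set.Finite.subset (p.roots.toFinset.finite_toSet) ?_
    rintro _ ⟨c, hc', rfl⟩
    rw [Finset.mem_coe, Multiset.mem_toFinset, Polynomial.mem_roots hp0]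
    exact hc'
  have hinfk : Infinite k := IsAlgClosed.instInfinite
  obtain ⟨c, hcmem⟩ := (hbad.union hroots).infinite_compl.nonempty
  rw [Set.mem_compl_iff, Set.mem_union, not_or] at hcmem
  obtain ⟨hc1, hc2⟩ := hcmem
  have hfr : Module.finrank k (R ⧸ Ideal.span {u - algebraMap k R c}) = dg k {(u : F)} := by
    by_contra h3
    exact hc1 h3
  set S : R := p.eval (algebraMap k R c) with hS
  have hS0 : S ≠ 0 := hc2
  have hSw : (S : F) ∈ Wsp k x ![J] (2 * a) b := by
    rw [hS, hpe]
    exact mem_wsp x J a b i₀ j₀ Φ c h0 h1 h2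
  obtain ⟨hfin, hle⟩ := hCLZ k k F 3 1 x ![J] δ D (2 * a) b R hCv.fin hCv.fg hxR (by
    intro i
    fin_cases i
    exact hJR) hδ (dg_smul_J hinfF J D hD) S hSw hS0
  have hpu : p.eval u = 0 := by
    apply Subtype.ext
    rw [hpe u]
    exact hΦ
  have hdvd : u - algebraMap k R c ∣ S := by
    have h3 := Polynomial.sub_dvd_eval_sub u (algebraMap k R c) p
    rw [hpu, zero_sub] at h3
    exact (dvd_neg.1 h3)
  have hspan : Ideal.span {S} ≤ Ideal.span {u - algebraMap k R c} := by
    rw [Ideal.span_singleton_le_span_singleton]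
    exact hdvd
  let q : (R ⧸ Ideal.span {S}) →ₐ[k] (R ⧸ Ideal.span {u - algebraMap k R c}) :=
    Ideal.Quotient.factorₐ k hspan
  have hqs : Function.Surjective q := Ideal.Quotient.factor_surjective hspan
  have h3 := LinearMap.finrank_le_finrank_of_surjective (f := q.toLinearMap) hqs
  rw [hfr, hdgu] at h3
  refine h3.trans (hle.trans (le_of_eq ?_))
  rfl

end Pool.Agent.H52.FFM
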